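import Pool.Agent.helper66.LIN.Spec

set_option autoImplicit false

/-!
# Row lin:PIN (project lin, MP_60c1a7_co): the small-first path on an increasing chain
-/

namespace LSH.Lin

/-- edges between points of the quadrant with corner `r` stay in the quadrant -/
theorem PIN_box (hOB : OB_stmt) (f : Edge) (r z : Pt) (ha : r.1 ≤ f.a.1 ∧ r.2 ≤ f.a.2)
    (hb : r.1 ≤ f.b.1 ∧ r.2 ≤ f.b.2) (hz : f.on z) : r.1 ≤ z.1 ∧ r.2 ≤ z.2 := by
  obtain ⟨h1, h2⟩ := hOB.1 f z hz
  rw [Set.mem_uIcc] at h1 h2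
  constructor
  · rcases h1 with h | h
    · exact ha.1.trans h.1
    · exact hb.1.trans h.1
  · rcases h2 with h | h
    · exact ha.2.trans h.1
    · exact hb.2.trans h.1

theorem PIN_step (hOB : OB_stmt) (hGTF : GTF_stmt) (C : Finset Pt) (hC : Gen (C : Set Pt))
    (x : Pt) (hx : x ∈ C) (hxC : ∀ p ∈ C.erase x, x.1 < p.1 ∧ x.2 < p.2) (s : BT) (G' : GT)
    (hG' : Pre s (C.erase x) G') (hr : ∀ p ∈ G'.pts, G'.root.1 ≤ p.1 ∧ G'.root.2 ≤ p.2)
    (t t' : BT) (G : GT) (h1 : G.shape = t') (h2 : G.root = x) (h3 : G.pts = x ::ₘ G'.pts)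
    (h4 : G.edges = ⟨x, G'.root, false⟩ :: G'.edges) (h5 : G.pend = (x, t) ::ₘ G'.pend) :
    Pre t' C G ∧ ∀ p ∈ G.pts, G.root.1 ≤ p.1 ∧ G.root.2 ≤ p.2 := by
  obtain ⟨g1, g2, g3, -⟩ := hGTF
  have hrt : G'.root ∈ G'.pts := g1 G'
  have hxr : x.1 < G'.root.1 ∧ x.2 < G'.root.2 := hxC _ (hG'.pts _ hrt)
  have hptC : ∀ p ∈ G'.pts, p ∈ C := fun p hp => Finset.mem_of_mem_erase (hG'.pts p hp)
  have hbox : ∀ f ∈ G'.edges, ∀ z, f.on z → G'.root.1 ≤ z.1 ∧ G'.root.2 ≤ z.2 := by
    intro f hf z hz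
    obtain ⟨ha, hb⟩ := g2 G' f hf
    exact PIN_box hOB f _ z (hr _ ha) (hr _ hb) hz
  have hnew : ∀ z, (⟨x, G'.root, false⟩ : Edge).on z → z.1 ≤ G'.root.1 ∧ z.2 ≤ G'.root.2 := by
    intro z hz
    obtain ⟨q1, q2⟩ := hOB.1 _ z hz
    simp only [Set.mem_uIcc] at q1 q2
    constructor
    · rcases q1 with h | h
      · exact h.2
      · exact h.2.trans hxr.1.le
    · rcases q2 with h | h
      · exact h.2
      · exact h.2.trans hxr.2.le
  refine ⟨⟨h1, ?_, ?_, ?_, ?_⟩, ?_⟩
  · intro p hp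
    rw [h3, Multiset.mem_cons] at hp
    rcases hp with rfl | hp
    · exact hx
    · exact hptC p hp
  · rw [h3, Multiset.nodup_cons]
    refine ⟨fun h => ?_, hG'.nodup⟩
    exact (Finset.ne_of_mem_erase (hG'.pts x h)) rfl
  · rw [h4, List.pairwise_cons]
    refine ⟨?_, hG'.nc⟩
    intro f hf z hz1 hz2
    obtain ⟨a1, a2⟩ := hnew z hz1
    obtain ⟨b1, b2⟩ := hbox f hf z hz2
    have hzr : z = G'.root := Prod.ext (le_antisymm a1 b1) (le_antisymm a2 b2)
    refine ⟨Or.inr hzr, ?_⟩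
    obtain ⟨ha, hb⟩ := g2 G' f hf
    exact hOB.2.1 (C : Set Pt) f z hC (by exact_mod_cast hptC _ ha) (by exact_mod_cast hptC _ hb)
      (by rw [hzr]; exact_mod_cast hptC _ hrt) hz2
  · intro i hi e he z hz hzi
    rw [h5, Multiset.mem_cons] at hi
    rw [h4, List.mem_cons] at he
    rcases hi with rfl | hi
    · simp only at hzi ⊢
      rcases he with rfl | he
      · rcases hz with ⟨h, -⟩ | ⟨-, h | h⟩
        · exact absurd h (by simp)
        · exact h.1.le
        · exfalso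
          have := h.1
          simp only at this
          linarith [hxr.2]
      · exfalso
        have := (hbox e he z hz).2
        linarith [hxr.2]
    · rcases he with rfl | he
      · exact (hnew z hz).1.trans (hr _ (g3 G' i hi)).1
      · exact hG'.ray i hi e he z hz hzi
  · intro p hp
    rw [h3, Multiset.mem_cons] at hp
    rw [h2]
    rcases hp with rfl | hp
    · exact ⟨le_rfl, le_rfl⟩
    · have := hr p hp
      exact ⟨hxr.1.le.trans this.1, hxr.2.le.trans this.2⟩

/-- leftmost point of an increasing chain -/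
theorem PIN_left (C : Finset Pt) (hC : Gen (C : Set Pt)) (hi : Inc C) (h : C.Nonempty) :
    ∃ x ∈ C, ∀ p ∈ C.erase x, x.1 < p.1 ∧ x.2 < p.2 := by
  obtain ⟨x, hx, hmin⟩ := Finset.exists_min_image C (fun p => p.1) h
  refine ⟨x, hx, ?_⟩
  intro p hp
  have hpC := Finset.mem_of_mem_erase hp
  have hne := Finset.ne_of_mem_erase hp
  have h1 := (hC x (by exact_mod_cast hx) p (by exact_mod_cast hpC) hne.symm).1
  have h2 : x.1 < p.1 := lt_of_le_of_ne (hmin p hpC) h1
  exact ⟨h2, hi x hx p hpC h2⟩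

theorem PIN (hOB : OB_stmt) (hGTF : GTF_stmt) : PIN_stmt := by
  intro t
  induction t with
  | leaf =>
    intro C hC hi hc
    simp only [BT.pl] at hc
    obtain ⟨x, hx⟩ := Finset.card_pos.1 hc
    refine ⟨.leaf x, ⟨rfl, ?_, ?_, ?_, ?_⟩, ?_⟩
    · intro p hp
      simp only [GT.pts, Multiset.mem_singleton] at hp
      rw [hp]; exact hx
    · exact Multiset.nodup_singleton x
    · exact List.Pairwise.nil
    · intro i hi'
      simp [GT.pend] at hi'
    · intro p hp
      simp only [GT.pts, Multiset.mem_singleton] at hp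
      rw [hp]; exact ⟨le_rfl, le_rfl⟩
  | un t _ =>
    intro C hC hi hc
    simp only [BT.pl] at hc
    obtain ⟨x, hx⟩ := Finset.card_pos.1 hc
    refine ⟨.un x t, ⟨rfl, ?_, ?_, ?_, ?_⟩, ?_⟩
    · intro p hp
      simp only [GT.pts, Multiset.mem_singleton] at hp
      rw [hp]; exact hx
    · exact Multiset.nodup_singleton x
    · exact List.Pairwise.nil
    · intro i hi' e he
      simp [GT.edges] at he
    · intro p hp
      simp only [GT.pts, Multiset.mem_singleton] at hp
      rw [hp]; exact ⟨le_rfl, le_rfl⟩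
  | br s t ihs iht =>
    intro C hC hi hc
    have hne : C.Nonempty := by
      apply Finset.card_pos.1
      simp only [BT.pl] at hc
      split_ifs at hc <;> omega
    obtain ⟨x, hx, hxC⟩ := PIN_left C hC hi hne
    have hC' : Gen ((C.erase x : Finset Pt) : Set Pt) := by
      intro a ha b hb
      exact hC a (by exact_mod_cast Finset.mem_of_mem_erase (by exact_mod_cast ha)) b
        (by exact_mod_cast Finset.mem_of_mem_erase (by exact_mod_cast hb))
    have hi' : Inc (C.erase x) := fun a ha b hb =>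
      hi a (Finset.mem_of_mem_erase ha) b (Finset.mem_of_mem_erase hb)
    have hcard := Finset.card_erase_of_mem hx
    simp only [BT.pl] at hc
    split_ifs at hc with hst
    · obtain ⟨G', hG', hr⟩ := ihs (C.erase x) hC' hi' (by omega)
      refine ⟨.br x false G' t, PIN_step hOB hGTF C hC x hx hxC s G' hG' hr t _ _ ?_ rfl rfl rfl rfl⟩
      simp only [GT.shape, hG'.shape]
    · obtain ⟨G', hG', hr⟩ := iht (C.erase x) hC' hi' (by omega)
      refine ⟨.bl x s false G', PIN_step hOB hGTF C hC x hx hxC t G' hG' hr s _ _ ?_ rfl rfl rfl rfl⟩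
      simp only [GT.shape, hG'.shape]

end LSH.Lin
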